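import Pool.Agent.helper82.T6.SpecW
import Pool.Agent.helper11.T5.TR
import Pool.Agent.helper92.T5.SZ
import Pool.Agent.helper8.T5.CZ
import Pool.Agent.helper59.T5.DYB
import Pool.Agent.helper59.T5.CBR

set_option autoImplicit false

/-! Row t6:WGF (MP_16912e_nt): the upper bound for the central set from the blocks -/

namespace Pool.Agent.T6

open Finset Pool.Agent.helper3.FT Pool.Agent.T5

/-- `Cen` is antitone in `κ` -/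
theorem WGF_cen (κ κ' N Y Y₂ : ℝ) (t : Tpl) (h0 : 0 < κ') (h : κ' ≤ κ) (hY : 0 ≤ Y) (hY₂ : 0 ≤ Y₂)
    (ht : Cen κ N Y Y₂ t) : Cen κ' N Y Y₂ t := by
  obtain ⟨a, b, c, d, e, f, g, i, j⟩ := ht
  have hκ : 0 < κ := by linarith
  have hZ : (0 : ℝ) ≤ t.2.2.2 := by linarith
  have hl : (0 : ℝ) ≤ lam t := le_trans (by positivity) f
  refine ⟨a, b, c, d, e, ?_, g, ?_, ?_⟩
  · exact le_trans (mul_le_mul_of_nonneg_right h hY₂) f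
  · refine le_trans ?_ i
    have h1 : (0 : ℝ) ≤ 2 * t.2.2.2 * √(lam t : ℝ) := by positivity
    nlinarith [mul_le_mul_of_nonneg_left h h1]
  · refine le_trans ?_ j
    have h1 : (0 : ℝ) ≤ 2 * √(t.2.2.2 : ℝ) * lam t := by positivity
    nlinarith [mul_le_mul_of_nonneg_left h h1]

/-- `Y ≥ 1` -/
theorem WGF_Y1 (η N Y Y₂ : ℝ) (_hη : 0 < η) (hη1 : η ≤ 1 / 4) (hN : 1 ≤ N) (hY : 0 < Y)
    (h2 : Y₂ ≤ N ^ η * Y) (h3 : N ^ (1 - η) ≤ Y * Y₂) : 1 ≤ Y := by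
  have hN0 : 0 < N := by linarith
  have hp : 0 < N ^ η := Real.rpow_pos_of_pos hN0 _
  have h4 : N ^ (1 - η) ≤ N ^ η * Y ^ 2 := by
    calc N ^ (1 - η) ≤ Y * Y₂ := h3
      _ ≤ Y * (N ^ η * Y) := mul_le_mul_of_nonneg_left h2 hY.le
      _ = N ^ η * Y ^ 2 := by ring
  have h5 : N ^ (1 - η) = N ^ η * N ^ (1 - 2 * η) := by
    rw [← Real.rpow_add hN0]
    congr 1
    ring
  rw [h5] at h4
  have h6 : N ^ (1 - 2 * η) ≤ Y ^ 2 := le_of_mul_le_mul_left h4 hp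
  have h7 : 1 ≤ N ^ (1 - 2 * η) := Real.one_le_rpow hN (by linarith)
  nlinarith

/-- the final estimate for one block -/
theorem WGF_num (NK LL T es er y P X C₁ q34 : ℝ) (hy : 0 < y) (hes : 0 < es) (her : 0 < er)
    (hq : 0 ≤ q34) (h1 : NK * (LL / T) ≤ C₁ * (P / (er ^ 4 * es ^ 3)))
    (h2 : NK * √LL ≤ C₁ * (P * X / (er * es))) (qq : ℝ) (hqq : q34 / es = 1 / qq) :
    NK / y * (LL / T + √LL * q34) ≤ C₁ * P / y * (1 / (er ^ 4 * es ^ 3) + X / (er * qq)) := by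
  have h3 : NK * √LL * q34 ≤ C₁ * (P * X / (er * es)) * q34 := mul_le_mul_of_nonneg_right h2 hq
  have h4 : C₁ * (P * X / (er * es)) * q34 = C₁ * P * (X / (er * qq)) := by
    calc C₁ * (P * X / (er * es)) * q34 = C₁ * P * X / er * (q34 / es) := by field_simp
      _ = C₁ * P * X / er * (1 / qq) := by rw [hqq]
      _ = C₁ * P * (X / (er * qq)) := by
          rw [div_mul_div_comm, mul_one, mul_div_assoc]
  rw [h4] at h3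
  calc NK / y * (LL / T + √LL * q34) = (NK * (LL / T) + NK * √LL * q34) / y := by ring
    _ ≤ (C₁ * (P / (er ^ 4 * es ^ 3)) + C₁ * P * (X / (er * qq))) / y := by
        apply div_le_div_of_nonneg_right _ hy.le
        linarith
    _ = C₁ * P / y * (1 / (er ^ 4 * es ^ 3) + X / (er * qq)) := by ring

theorem WGF (hWPR : WPR_stmt) (hWNU : WNU_stmt) : WGF_stmt := by
  intro hLFS
  have hCZ : CZ_stmt := CZ (SZ TR)
  have hCBR : CBR_stmt := CBR DYB hCZ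
  obtain ⟨B, τ, hτ, hW⟩ := hWPR hLFS
  obtain ⟨η₀, hη₀, hU⟩ := hWNU B τ hτ
  refine ⟨min η₀ (1 / 4), lt_min hη₀ (by norm_num), ?_⟩
  intro κ A hκ hA
  have hκ' : 0 < min κ 1 := lt_min hκ one_pos
  have hκ1 : min κ 1 ≤ 1 := min_le_right _ _
  have hκκ : min κ 1 ≤ κ := min_le_left _ _
  generalize min κ 1 = κ' at hκ' hκ1 hκκ
  obtain ⟨C₁, N₀, hC₁, hU⟩ := hU κ' A hκ' hκ1 hA
  obtain ⟨C₂, hC₂, hW⟩ := hW C₁ hC₁
  obtain ⟨C₃, hC₃, hCB⟩ := hCBR κ' hκ' hκ1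
  have hη : 0 < min η₀ (1 / 4 : ℝ) := lt_min hη₀ (by norm_num)
  have hη1 : min η₀ (1 / 4 : ℝ) ≤ 1 / 4 := min_le_right _ _
  have hηη : min η₀ (1 / 4 : ℝ) ≤ η₀ := min_le_left _ _
  generalize min η₀ (1 / 4 : ℝ) = η at hη hη1 hηη
  have h12 : 1 ≤ C₁ * C₂ := one_le_mul_of_one_le_of_one_le hC₁ hC₂
  have h123 : 1 ≤ C₁ * C₂ * C₃ := one_le_mul_of_one_le_of_one_le h12 hC₃
  refine ⟨C₁ * C₂ * C₃, max N₀ 1, h123, ?_⟩
  intro N Y Y₂ hN hYY hY₂ hAN hL d er es y hd hdN her hes hcop hdd hsq hy s S hS F hF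
  have hN0 : N₀ ≤ N := le_trans (le_max_left _ _) hN
  have hN1 : 1 ≤ N := le_trans (le_max_right _ _) hN
  have hNp : 0 < N := by linarith
  have hP : 0 < Y * Y₂ := lt_of_lt_of_le (Real.rpow_pos_of_pos hNp _) hL
  have hs : 0 ≤ s := le_trans (Nat.cast_nonneg _) (hS (0, 0))
  have hy1 : 1 ≤ y := Nat.pos_of_dvd_of_pos hy hes
  have hyR : (0 : ℝ) < y := by exact_mod_cast hy1
  have herR : (0 : ℝ) < er := by exact_mod_cast her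
  have hesR : (0 : ℝ) < es := by exact_mod_cast hes
  have hdR : (1 : ℝ) ≤ d := by exact_mod_cast hd
  have hNd : 1 ≤ N * (d : ℝ) ^ 2 := by nlinarith
  have hNdp : 0 < N * (d : ℝ) ^ 2 := by linarith
  have hX0 : 0 ≤ (Y * Y₂ / (N * (d : ℝ) ^ 2)) ^ (3 / 2 : ℝ) := Real.rpow_nonneg (by positivity) _
  have hq0 : 0 < (es : ℝ) ^ (1 / 4 : ℝ) := Real.rpow_pos_of_pos hesR _
  have hBR0 : 0 ≤ 1 / ((er : ℝ) ^ 4 * (es : ℝ) ^ 3) +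
      (Y * Y₂ / (N * (d : ℝ) ^ 2)) ^ (3 / 2 : ℝ) / (er * (es : ℝ) ^ (1 / 4 : ℝ)) := by positivity
  rcases F.eq_empty_or_nonempty with hE | ⟨t₀, ht₀⟩
  · rw [hE]
    simp only [Finset.card_empty, Nat.cast_zero]
    positivity
  have hY0 : 0 < Y := by
    have h := (hF t₀ ht₀).1
    have h1 := h.z1
    have h2 := h.z2
    linarith
  have hY1 : 1 ≤ Y := WGF_Y1 η N Y Y₂ hη hη1 hN1 hY0 hY₂ hL
  have hY₂1 : 1 ≤ Y₂ := le_trans hY1 hYY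
  have hcen : ∀ t ∈ F, Cen κ' (N * (d : ℝ) ^ 2) Y Y₂ t := fun t ht =>
    WGF_cen κ κ' _ Y Y₂ t hκ' hκκ hY0.le (by linarith) (hF t ht).1
  have hY₂' : Y₂ ≤ N ^ η₀ * Y :=
    le_trans hY₂ (mul_le_mul_of_nonneg_right (Real.rpow_le_rpow_of_exponent_le hN1 hηη) hY0.le)
  have hL' : N ^ (1 - η₀) ≤ Y * Y₂ :=
    le_trans (Real.rpow_le_rpow_of_exponent_le hN1 (by linarith)) hL
  have hdN' : (d : ℝ) ≤ N ^ η₀ := le_trans hdN (Real.rpow_le_rpow_of_exponent_le hN1 hηη)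
  have hUU := hU N Y Y₂ hN0 hYY hY₂' hAN hL' d er es y hd hdN' her hes hy1 hdd
  obtain ⟨z1, z2, z3, z4, -⟩ := hCZ κ' _ Y Y₂ t₀ hκ' hκ1 hNd hY1 hY₂1 (hcen t₀ ht₀)
  have hsN0 : 0 ≤ sN (N * (d : ℝ) ^ 2) Y Y₂ := by unfold sN; positivity
  have hsK0 : 0 ≤ sK (N * (d : ℝ) ^ 2) Y Y₂ := by unfold sK; positivity
  obtain ⟨u1, u2, -⟩ := hUU t₀.1.1 t₀.1.2 ⟨z1, by linarith, z3, by linarith⟩
  have hfin : (F.card : ℝ) ≤ C₃ * (C₂ ^ (y.primeFactors.card + 1) * s *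
      (C₁ * (Y * Y₂) / y * (1 / ((er : ℝ) ^ 4 * (es : ℝ) ^ 3) +
        (Y * Y₂ / (N * (d : ℝ) ^ 2)) ^ (3 / 2 : ℝ) / (er * (es : ℝ) ^ (1 / 4 : ℝ))))) := by
    refine hCB (N * (d : ℝ) ^ 2) Y Y₂ hNd hY1 hY₂1 u1 u2 F hcen _ (by positivity) ?_
    intro N₁ K₁ hN₁ hK₁ hblk F' hF' hF''
    obtain ⟨-, -, -, -, -, L, Lp, T, b, ρ, w1, w2, w3, w4, w5, w6, w7⟩ := hUU N₁ K₁ hblk
    have key := hW N₁ K₁ L Lp T er es y b ρ 0 Y s w1 w2 her hes hcop hsq hy hY0 w3 S hS F' (by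
      intro t ht
      obtain ⟨f1, f2, f3, f4⟩ := hF t (hF' ht)
      obtain ⟨g1, g2, g3, g4⟩ := hF'' t ht
      have hc := hcen t (hF' ht)
      obtain ⟨-, -, -, -, c5, c6, c7, -⟩ := hCZ κ' _ Y Y₂ t hκ' hκ1 hNd hY1 hY₂1 hc
      refine ⟨hc.tt, ?_, f3, f4, by linarith, by linarith, ?_, ?_⟩
      · unfold pairs
        rw [Finset.mem_filter, Finset.mem_product, Finset.mem_Icc, Finset.mem_Icc]
        exact ⟨⟨⟨hc.tt.n1, g2⟩, ⟨hc.tt.k1, g4⟩⟩, g1, g3, hc.tt.co, f2⟩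
      · exact_mod_cast c7
      · have := hc.z2
        linarith)
    have h34 : (es : ℝ) ^ (3 / 4 : ℝ) / es = 1 / (es : ℝ) ^ (1 / 4 : ℝ) := by
      rw [div_eq_div_iff hesR.ne' hq0.ne', ← Real.rpow_add hesR]
      norm_num
    have hnum := WGF_num ((N₁ : ℝ) * K₁) (L * Lp : ℝ) T es er y (Y * Y₂)
      ((Y * Y₂ / (N * (d : ℝ) ^ 2)) ^ (3 / 2 : ℝ)) C₁ ((es : ℝ) ^ (3 / 4 : ℝ)) hyR hesR herR
      (Real.rpow_nonneg hesR.le _) w6 w7 ((es : ℝ) ^ (1 / 4 : ℝ)) h34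
    refine le_trans key ?_
    have hc0 : 0 ≤ C₂ ^ (y.primeFactors.card + 1) * s := by positivity
    calc C₂ ^ (y.primeFactors.card + 1) * s * (N₁ * K₁ / y) *
          (L * Lp / T + √(L * Lp : ℝ) * (es : ℝ) ^ (3 / 4 : ℝ)) =
        C₂ ^ (y.primeFactors.card + 1) * s * ((N₁ * K₁ / y) *
          (L * Lp / T + √(L * Lp : ℝ) * (es : ℝ) ^ (3 / 4 : ℝ))) := by ring
      _ ≤ _ := mul_le_mul_of_nonneg_left hnum hc0
  refine le_trans hfin ?_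
  have hpow : C₃ * C₁ * C₂ ^ (y.primeFactors.card + 1) ≤ (C₁ * C₂ * C₃) ^ (y.primeFactors.card + 1) := by
    rw [mul_pow, mul_pow]
    have e1 : C₁ ≤ C₁ ^ (y.primeFactors.card + 1) := le_self_pow₀ hC₁ (Nat.succ_ne_zero _)
    have e3 : C₃ ≤ C₃ ^ (y.primeFactors.card + 1) := le_self_pow₀ hC₃ (Nat.succ_ne_zero _)
    have e2 : 0 ≤ C₂ ^ (y.primeFactors.card + 1) := by positivity
    have e4 : C₁ * C₃ ≤ C₁ ^ (y.primeFactors.card + 1) * C₃ ^ (y.primeFactors.card + 1) :=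
      mul_le_mul e1 e3 (by linarith) (by positivity)
    nlinarith [mul_le_mul_of_nonneg_right e4 e2]
  have hrest : 0 ≤ s / y * (Y * Y₂) * (1 / ((er : ℝ) ^ 4 * (es : ℝ) ^ 3) +
        (Y * Y₂ / (N * (d : ℝ) ^ 2)) ^ (3 / 2 : ℝ) / (er * (es : ℝ) ^ (1 / 4 : ℝ))) := by positivity
  calc C₃ * (C₂ ^ (y.primeFactors.card + 1) * s *
      (C₁ * (Y * Y₂) / y * (1 / ((er : ℝ) ^ 4 * (es : ℝ) ^ 3) +
        (Y * Y₂ / (N * (d : ℝ) ^ 2)) ^ (3 / 2 : ℝ) / (er * (es : ℝ) ^ (1 / 4 : ℝ))))) =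
      C₃ * C₁ * C₂ ^ (y.primeFactors.card + 1) * (s / y * (Y * Y₂) * (1 / ((er : ℝ) ^ 4 * (es : ℝ) ^ 3) +
        (Y * Y₂ / (N * (d : ℝ) ^ 2)) ^ (3 / 2 : ℝ) / (er * (es : ℝ) ^ (1 / 4 : ℝ)))) := by ring
    _ ≤ (C₁ * C₂ * C₃) ^ (y.primeFactors.card + 1) * (s / y * (Y * Y₂) * (1 / ((er : ℝ) ^ 4 * (es : ℝ) ^ 3) +
        (Y * Y₂ / (N * (d : ℝ) ^ 2)) ^ (3 / 2 : ℝ) / (er * (es : ℝ) ^ (1 / 4 : ℝ)))) :=
        mul_le_mul_of_nonneg_right hpow hrest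
    _ = _ := by ring

end Pool.Agent.T6
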