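import Pool.Agent.helper82.T6.SpecL2

set_option autoImplicit false

/-!
# T6, row ML: the moment of the number of attached primes
-/

namespace Pool.Agent.T6

open Finset Pool.Agent.helper3.FT

/-- A subset of given size with small product. -/
theorem ML_pick (K : ℕ) (hK : 1 ≤ K) : ∀ (W : Finset ℕ), (∀ p ∈ W, 1 ≤ p) → ∀ k : ℕ, K * k ≤ W.card →
    ∃ T : Finset ℕ, T ⊆ W ∧ T.card = k ∧ (∏ p ∈ T, p) ^ K ≤ ∏ p ∈ W, p := by
  induction K, hK using Nat.le_induction with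
  | base =>
    intro W hW k hk
    rw [one_mul] at hk
    obtain ⟨T, hT, hTk⟩ := Finset.exists_subset_card_eq hk
    refine ⟨T, hT, hTk, ?_⟩
    rw [pow_one]
    exact Finset.prod_le_prod_of_subset_of_one_le' hT (fun p hp _ => hW p hp)
  | succ K hK ih =>
    intro W hW k hk
    have hk' : K * k + k ≤ W.card := by
      have : (K + 1) * k = K * k + k := by ring
      omega
    obtain ⟨T₀, hT₀, hT₀k⟩ := Finset.exists_subset_card_eq (s := W) (n := k) (by omega)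
    have hcard : (W \ T₀).card = W.card - k := by rw [Finset.card_sdiff_of_subset hT₀, hT₀k]
    obtain ⟨T, hT, hTk, hTp⟩ := ih (W \ T₀) (fun p hp => hW p (Finset.mem_sdiff.1 hp).1) k (by omega)
    have hprod : (∏ p ∈ W \ T₀, p) * ∏ p ∈ T₀, p = ∏ p ∈ W, p := Finset.prod_sdiff hT₀
    have hTW : T ⊆ W := hT.trans Finset.sdiff_subset
    rcases le_total (∏ p ∈ T, p) (∏ p ∈ T₀, p) with h | h
    · refine ⟨T, hTW, hTk, ?_⟩
      rw [pow_succ, ← hprod]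
      exact Nat.mul_le_mul hTp h
    · refine ⟨T₀, hT₀, hT₀k, ?_⟩
      rw [pow_succ, ← hprod]
      exact Nat.mul_le_mul ((Nat.pow_le_pow_left h K).trans hTp) le_rfl

theorem ML_crt (hN3 : N3_stmt) (v : V4) (T : Finset ℕ) (h : ∀ p ∈ T, p.Prime ∧ ∃ r : ℕ, InG p r v) :
    Squarefree (∏ p ∈ T, p) ∧ ∃ ρ : ℕ, InG (∏ p ∈ T, p) ρ v := by
  classical
  induction T using Finset.induction_on with
  | empty =>
    refine ⟨by simp, 0, ?_⟩
    simp [InG]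
  | insert p T hp ih =>
    obtain ⟨hs, ρ, hρ⟩ := ih (fun q hq => h q (Finset.mem_insert_of_mem hq))
    obtain ⟨hpp, r, hr⟩ := h p (Finset.mem_insert_self _ _)
    have hco : Nat.Coprime p (∏ q ∈ T, q) := by
      refine Nat.Coprime.prod_right fun q hq => ?_
      rw [Nat.coprime_primes hpp (h q (Finset.mem_insert_of_mem hq)).1]
      rintro rfl
      exact hp hq
    rw [Finset.prod_insert hp]
    refine ⟨(Nat.squarefree_mul hco).2 ⟨hpp.prime.squarefree, hs⟩, ?_⟩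
    have hc := Nat.chineseRemainder hco r ρ
    exact ⟨hc.1, hN3 p _ r ρ hc.1 v hco hr hρ hc.2.1 hc.2.2⟩

theorem ML_nrm0 (b : ℝ) (hb : 1 ≤ b) (v : V4) : 0 ≤ nrm b v := by
  unfold nrm
  exact le_max_of_le_left (le_max_of_le_left (by positivity))

/-- The data attached to one vector. -/
theorem ML_vec (hNRV : NRV_stmt) (hN3 : N3_stmt) (b : ℝ) (u y m j : ℕ) (hb : 1 ≤ b) (hy : 5 ≤ y)
    (hm : 1 ≤ m) (hu : 1 ≤ u) (v : V4) (hv : RV v ≠ 0) (hnv : nrm b v ≤ √(2 ^ u)) :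
    ∃ e : ℕ, 1 ≤ e ∧ e ^ 150 ≤ 2 ^ (15 * u) ∧ Squarefree e ∧ Nat.Coprime e 5 ∧ Nat.Coprime m e ∧
      (∀ p : ℕ, p.Prime → p ∣ e → j ≤ Nat.log 2 p) ∧ (∃ ρ : ℕ, InG e ρ v) ∧
      wj y j m v < 150 * (e.primeFactors.card + 1) := by
  classical
  set n : ℕ := (RV v).natAbs with hn
  have hn0 : n ≠ 0 := Int.natAbs_ne_zero.2 hv
  set W : Finset ℕ := n.primeFactors.filter (fun p => PV y v p ∧ ¬ p ∣ m ∧ j ≤ Nat.log 2 p) with hW
  have hpv5 : ∀ p : ℕ, PV y v p → Nat.Coprime p 5 := by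
    intro p hp
    rw [Nat.coprime_primes hp.1 (by norm_num)]
    have := hp.2.1
    omega
  have hset : {p : ℕ | PV y v p ∧ ¬ p ∣ m ∧ j ≤ Nat.log 2 p} = (W : Set ℕ) := by
    ext p
    simp only [Set.mem_setOf_eq, hW, Finset.coe_filter, Nat.mem_primeFactors]
    constructor
    · rintro ⟨h1, h2, h3⟩
      obtain ⟨r, hr, hrv⟩ := h1.2.2
      have h4 := hNRV.1 p r v (hpv5 p h1) hrv
      exact ⟨⟨h1.1, by rw [hn]; exact Int.natCast_dvd.1 h4, hn0⟩, h1, h2, h3⟩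
    · rintro ⟨_, h⟩
      exact h
  have hwj : wj y j m v = W.card := by
    unfold wj
    rw [hset, Set.ncard_coe_finset]
  have hprod : ∏ p ∈ W, p ≤ n := by
    refine Nat.le_of_dvd (Nat.pos_of_ne_zero hn0) ?_
    exact (Finset.prod_dvd_prod_of_subset _ _ _ (Finset.filter_subset _ _)).trans (Nat.prod_primeFactors_dvd n)
  have hnb : n ≤ 2 ^ (15 * u) := by
    have h1 : (n : ℝ) ≤ 3842 * nrm b v ^ 6 := by
      have h2 := hNRV.2 b v hb
      have h3 : (n : ℝ) = |(RV v : ℝ)| := by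
        rw [hn, Nat.cast_natAbs, Int.cast_abs]
      rw [h3]; exact h2
    have h4 : nrm b v ^ 6 ≤ (2 ^ u) ^ 3 := by
      have h5 : nrm b v ^ 2 ≤ 2 ^ u := by
        calc nrm b v ^ 2 ≤ (√(2 ^ u)) ^ 2 := pow_le_pow_left₀ (ML_nrm0 b hb v) hnv 2
          _ = 2 ^ u := Real.sq_sqrt (by positivity)
      calc nrm b v ^ 6 = (nrm b v ^ 2) ^ 3 := by ring
        _ ≤ (2 ^ u) ^ 3 := pow_le_pow_left₀ (by positivity) h5 3
    have h6 : (n : ℝ) ≤ ((2 ^ (15 * u) : ℕ) : ℝ) := by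
      calc (n : ℝ) ≤ 3842 * nrm b v ^ 6 := h1
        _ ≤ 3842 * (2 ^ u) ^ 3 := by linarith
        _ ≤ 2 ^ 12 * (2 ^ u) ^ 3 := by
            have : (0 : ℝ) ≤ (2 ^ u) ^ 3 := by positivity
            nlinarith
        _ = (2 : ℝ) ^ (12 + 3 * u) := by
            rw [pow_add, ← pow_mul, mul_comm u 3]
        _ ≤ (2 : ℝ) ^ (15 * u) := pow_le_pow_right₀ (by norm_num) (by omega)
        _ = ((2 ^ (15 * u) : ℕ) : ℝ) := by push_cast; rfl
    exact_mod_cast h6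
  have hWp : ∀ p ∈ W, p.Prime ∧ PV y v p ∧ ¬ p ∣ m ∧ j ≤ Nat.log 2 p := by
    intro p hp
    have h := Finset.mem_filter.1 hp
    exact ⟨(Nat.mem_primeFactors.1 h.1).1, h.2⟩
  obtain ⟨T, hTW, hTk, hTp⟩ := ML_pick 150 (by norm_num) W (fun p hp => (hWp p hp).1.one_lt.le)
    (W.card / 150) (Nat.mul_div_le _ _)
  have hT : ∀ p ∈ T, p.Prime := fun p hp => (hWp p (hTW hp)).1
  obtain ⟨hsq, ρ, hρ⟩ := ML_crt hN3 v T (fun p hp => ⟨hT p hp, by
    obtain ⟨r, -, hr⟩ := (hWp p (hTW hp)).2.1.2.2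
    exact ⟨r, hr⟩⟩)
  have hpf : (∏ p ∈ T, p).primeFactors = T := Nat.primeFactors_prod hT
  have hdiv : ∀ p : ℕ, p.Prime → p ∣ ∏ q ∈ T, q → p ∈ T := by
    intro p hp hd
    rw [← hpf]
    exact Nat.mem_primeFactors.2 ⟨hp, hd, hsq.ne_zero⟩
  refine ⟨∏ p ∈ T, p, Nat.one_le_iff_ne_zero.2 hsq.ne_zero, hTp.trans (hprod.trans hnb), hsq, ?_, ?_, ?_,
    ⟨ρ, hρ⟩, ?_⟩
  · exact Nat.Coprime.prod_left fun p hp => hpv5 p (hWp p (hTW hp)).2.1
  · refine Nat.Coprime.prod_right fun p hp => ?_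
    exact ((Nat.Prime.coprime_iff_not_dvd (hT p hp)).2 (hWp p (hTW hp)).2.2.1).symm
  · intro p hp hd
    exact (hWp p (hTW (hdiv p hp hd))).2.2.2
  · rw [hwj, hpf, hTk]
    have := Nat.div_add_mod W.card 150
    have h2 := Nat.mod_lt W.card (show 0 < 150 by norm_num)
    omega

theorem ML (hNBC : NBC_stmt) (hNRV : NRV_stmt) (hN3 : N3_stmt) (hP7 : P7_stmt) : ML_stmt := by
  classical
  obtain ⟨C₇, C₁, hC₇, h7⟩ := hP7 (4 ^ 150)
  refine ⟨81 * 4 ^ 150 * C₇, C₁, ?_, ?_⟩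
  · have h1 : (1 : ℝ) ≤ 81 * 4 ^ 150 := by norm_num
    nlinarith
  intro b u s hMR y m r j F hy hm hrm hmu hj hju hF
  have hb := hMR.b1
  have hu : 1 ≤ u := hj.trans hju
  -- powers of `X`
  set X : ℝ := (2 : ℝ) ^ ((u : ℝ) / 400) with hX
  have hX1 : 1 ≤ X := Real.one_le_rpow (by norm_num) (by positivity)
  have hXk : ∀ k : ℕ, X ^ k = (2 : ℝ) ^ ((k : ℝ) * u / 400) := by
    intro k
    rw [hX, ← Real.rpow_natCast, ← Real.rpow_mul (by norm_num)]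
    congr 1
    ring
  have hX4 : (2 : ℝ) ^ ((u : ℝ) / 100) = X ^ 4 := by
    rw [hXk]; congr 1; push_cast; ring
  have hX40 : (2 : ℝ) ^ ((u : ℝ) / 10) = X ^ 40 := by
    rw [hXk]; congr 1; push_cast; ring
  have hX400 : (2 : ℝ) ^ u = X ^ 400 := by
    rw [hXk, ← Real.rpow_natCast]; congr 1; push_cast; ring
  have hXs : √((2 : ℝ) ^ u) = X ^ 200 := by
    rw [hX400, show X ^ 400 = (X ^ 200) ^ 2 by ring]
    exact Real.sqrt_sq (by positivity)
  have hb4 : b ≤ X ^ 4 := by rw [← hX4]; exact hMR.b2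
  have hs1 := hMR.s1
  have hsX : s ≤ X := hMR.s2
  have hmX : (m : ℝ) ≤ X ^ 40 := by rw [← hX40]; exact hmu
  set V : ℝ := √(2 ^ u) / s ^ 2 with hV
  have hs2 : 1 ≤ s ^ 2 := one_le_pow₀ hs1
  have hVle : V ≤ √(2 ^ u) := div_le_self (Real.sqrt_nonneg _) hs2
  have hV4 : V ^ 4 = 4 ^ u / s ^ 8 := by
    rw [hV, div_pow, ← pow_mul]
    congr 1
    rw [show (√((2 : ℝ) ^ u)) ^ 4 = ((√((2 : ℝ) ^ u)) ^ 2) ^ 2 by ring, Real.sq_sqrt (by positivity),
      ← pow_mul, mul_comm u 2, pow_mul]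
    norm_num
  have hm5 : Nat.Coprime m 5 := by
    rw [Nat.coprime_comm, Nat.Prime.coprime_iff_not_dvd (by norm_num)]
    intro h5
    have := hrm 5 (by norm_num) h5
    omega
  -- the numbers `e`
  have hex : ∀ v : V4, ∃ e : ℕ, v ∈ F → (1 ≤ e ∧ e ^ 150 ≤ 2 ^ (15 * u) ∧ Squarefree e ∧ Nat.Coprime e 5 ∧
      Nat.Coprime m e ∧ (∀ p : ℕ, p.Prime → p ∣ e → j ≤ Nat.log 2 p) ∧ (∃ ρ : ℕ, InG e ρ v) ∧
      wj y j m v < 150 * (e.primeFactors.card + 1)) := by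
    intro v
    by_cases hv : v ∈ F
    · obtain ⟨e, he⟩ := ML_vec hNRV hN3 b u y m j hb hy hm hu v (hF v hv).1 ((hF v hv).2.2.trans hVle)
      exact ⟨e, fun _ => he⟩
    · exact ⟨0, fun h => absurd h hv⟩
  choose ev hev using hex
  have heX : ∀ v ∈ F, (ev v : ℝ) ≤ X ^ 40 := by
    intro v hv
    have h1 := (hev v hv).2.1
    have h2 : ((ev v : ℝ)) ^ 150 ≤ (X ^ 40) ^ 150 := by
      calc ((ev v : ℝ)) ^ 150 ≤ (2 : ℝ) ^ (15 * u) := by exact_mod_cast h1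
        _ = ((2 : ℝ) ^ u) ^ 15 := by rw [mul_comm, pow_mul]
        _ = (X ^ 40) ^ 150 := by rw [hX400]; ring
    exact le_of_pow_le_pow_left₀ (by norm_num) (by positivity) h2
  set E : Finset ℕ := F.image ev with hE
  -- one fibre
  have hfib : ∀ e ∈ E, ((F.filter (fun v => ev v = e)).card : ℝ) ≤ 81 * V ^ 4 / ((m : ℝ) ^ 2 * e) := by
    intro e he
    obtain ⟨v₀, hv₀, rfl⟩ := Finset.mem_image.1 he
    obtain ⟨he1, -, hsq, he5, hco, -, -, -⟩ := hev v₀ hv₀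
    set e := ev v₀ with hedef
    have he0 : (0 : ℝ) < e := by exact_mod_cast he1
    have hm0 : (0 : ℝ) < m := by exact_mod_cast hm
    have hsub : F.filter (fun v => ev v = e) ⊆ (range e).biUnion
        (fun ρ => F.filter (fun v => InG (m * e) (Nat.chineseRemainder hco r ρ).1 v)) := by
      intro v hv
      obtain ⟨hvF, hve⟩ := Finset.mem_filter.1 hv
      obtain ⟨ρ, hρ⟩ := (hev v hvF).2.2.2.2.2.2.1
      rw [hve] at hρ
      refine Finset.mem_biUnion.2 ⟨ρ % e, Finset.mem_range.2 (Nat.mod_lt _ he1), Finset.mem_filter.2 ⟨hvF, ?_⟩⟩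
      have hc := (Nat.chineseRemainder hco r (ρ % e)).2
      exact hN3 m e r ρ _ v hco (hF v hvF).2.1 hρ hc.1 (hc.2.trans (Nat.mod_modEq ρ e))
    have hone : ∀ ρ ∈ range e, ((F.filter (fun v => InG (m * e) (Nat.chineseRemainder hco r ρ).1 v)).card : ℝ) ≤
        81 * V ^ 4 / ((m : ℝ) * e) ^ 2 := by
      intro ρ _
      have h := hNBC b V (m * e) (Nat.chineseRemainder hco r ρ).1
        (F.filter (fun v => InG (m * e) (Nat.chineseRemainder hco r ρ).1 v)) hb (Nat.mul_pos hm he1)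
        (Nat.Coprime.mul_left hm5 he5) ?_ ?_
      · rw [Nat.cast_mul] at h
        exact h
      · rw [hV, le_div_iff₀ (by positivity), hXs, Nat.cast_mul]
        have h1 : (m : ℝ) * e ≤ X ^ 40 * X ^ 40 := mul_le_mul hmX (heX v₀ hv₀) he0.le (by positivity)
        have h2 : b ^ 5 ≤ (X ^ 4) ^ 5 := pow_le_pow_left₀ (by linarith) hb4 5
        have h3 : s ^ 2 ≤ X ^ 2 := pow_le_pow_left₀ (by linarith) hsX 2
        calc (m : ℝ) * e * b ^ 5 * s ^ 2 ≤ (X ^ 40 * X ^ 40) * (X ^ 4) ^ 5 * X ^ 2 := by gcongr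
          _ = X ^ 102 := by ring
          _ ≤ X ^ 200 := pow_le_pow_right₀ hX1 (by norm_num)
      · intro v hv
        obtain ⟨hvF, hvG⟩ := Finset.mem_filter.1 hv
        exact ⟨hvG, (hF v hvF).2.2⟩
    calc ((F.filter (fun v => ev v = e)).card : ℝ)
        ≤ (((range e).biUnion (fun ρ => F.filter
          (fun v => InG (m * e) (Nat.chineseRemainder hco r ρ).1 v))).card : ℝ) := by
            exact_mod_cast Finset.card_le_card hsub
      _ ≤ ∑ ρ ∈ range e, ((F.filter (fun v => InG (m * e) (Nat.chineseRemainder hco r ρ).1 v)).card : ℝ) := by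
            exact_mod_cast Finset.card_biUnion_le
      _ ≤ ∑ _ρ ∈ range e, 81 * V ^ 4 / ((m : ℝ) * e) ^ 2 := Finset.sum_le_sum hone
      _ = 81 * V ^ 4 / ((m : ℝ) ^ 2 * e) := by
            rw [Finset.sum_const, Finset.card_range, nsmul_eq_mul]
            field_simp
  -- one vector
  have hvec : ∀ v ∈ F, (4 : ℝ) ^ wj y j m v ≤ 4 ^ 150 * (((4 ^ 150 : ℕ) : ℝ)) ^ (ev v).primeFactors.card := by
    intro v hv
    have h1 := (hev v hv).2.2.2.2.2.2.2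
    calc (4 : ℝ) ^ wj y j m v ≤ 4 ^ (150 * ((ev v).primeFactors.card + 1)) :=
          pow_le_pow_right₀ (by norm_num) h1.le
      _ = 4 ^ 150 * (((4 ^ 150 : ℕ) : ℝ)) ^ (ev v).primeFactors.card := by
          rw [pow_mul, pow_succ, mul_comm, Nat.cast_pow, Nat.cast_ofNat]
  have hlog : ∀ e ∈ E, Squarefree e ∧ ∀ p : ℕ, p.Prime → p ∣ e → j ≤ Nat.log 2 p ∧ Nat.log 2 p ≤ u := by
    intro e he
    obtain ⟨v, hv, rfl⟩ := Finset.mem_image.1 he
    obtain ⟨he1, -, hsq, -, -, hjl, -, -⟩ := hev v hv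
    refine ⟨hsq, fun p hp hd => ⟨hjl p hp hd, ?_⟩⟩
    have h1 : (p : ℝ) ≤ ((2 ^ u : ℕ) : ℝ) := by
      calc (p : ℝ) ≤ ev v := by exact_mod_cast Nat.le_of_dvd he1 hd
        _ ≤ X ^ 40 := heX v hv
        _ ≤ X ^ 400 := pow_le_pow_right₀ hX1 (by norm_num)
        _ = ((2 ^ u : ℕ) : ℝ) := by rw [← hX400]; push_cast; rfl
    have h2 : p ≤ 2 ^ u := by exact_mod_cast h1
    calc Nat.log 2 p ≤ Nat.log 2 (2 ^ u) := Nat.log_mono_right h2
      _ = u := Nat.log_pow (by norm_num) u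
  have h7' := h7 j u E hj hju hlog
  have hm0 : (0 : ℝ) < m := by exact_mod_cast hm
  calc ∑ v ∈ F, (4 : ℝ) ^ wj y j m v
      ≤ ∑ v ∈ F, 4 ^ 150 * (((4 ^ 150 : ℕ) : ℝ)) ^ (ev v).primeFactors.card := Finset.sum_le_sum hvec
    _ = ∑ e ∈ E, ∑ v ∈ F with ev v = e, 4 ^ 150 * (((4 ^ 150 : ℕ) : ℝ)) ^ (ev v).primeFactors.card :=
        (Finset.sum_fiberwise_of_maps_to (fun v hv => Finset.mem_image_of_mem ev hv) _).symm
    _ = ∑ e ∈ E, ((F.filter (fun v => ev v = e)).card : ℝ) *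
          (4 ^ 150 * (((4 ^ 150 : ℕ) : ℝ)) ^ e.primeFactors.card) := by
        refine Finset.sum_congr rfl fun e _ => ?_
        rw [Finset.sum_congr rfl (g := fun _ => (4 : ℝ) ^ 150 * (((4 ^ 150 : ℕ) : ℝ)) ^ e.primeFactors.card)
          (fun v hv => by rw [(Finset.mem_filter.1 hv).2]), Finset.sum_const, nsmul_eq_mul]
    _ ≤ ∑ e ∈ E, 81 * V ^ 4 / ((m : ℝ) ^ 2 * e) *
          (4 ^ 150 * (((4 ^ 150 : ℕ) : ℝ)) ^ e.primeFactors.card) :=
        Finset.sum_le_sum fun e he => mul_le_mul_of_nonneg_right (hfib e he) (by positivity)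
    _ = 81 * 4 ^ 150 * (V ^ 4 / (m : ℝ) ^ 2) * ∑ e ∈ E, (((4 ^ 150 : ℕ) : ℝ)) ^ e.primeFactors.card / e := by
        rw [Finset.mul_sum]
        refine Finset.sum_congr rfl fun e he => ?_
        obtain ⟨v, hv, rfl⟩ := Finset.mem_image.1 he
        have he0 : (0 : ℝ) < ev v := by exact_mod_cast (hev v hv).1
        generalize (((4 ^ 150 : ℕ) : ℝ)) ^ (ev v).primeFactors.card = B
        generalize (4 : ℝ) ^ 150 = D
        field_simp
    _ ≤ 81 * 4 ^ 150 * (V ^ 4 / (m : ℝ) ^ 2) * (C₇ * ((u : ℝ) / j) ^ C₁) :=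
        mul_le_mul_of_nonneg_left h7' (by positivity)
    _ = 81 * 4 ^ 150 * C₇ * ((4 ^ u / s ^ 8) / (m : ℝ) ^ 2) * ((u : ℝ) / j) ^ C₁ := by
        rw [hV4]
        ring

end Pool.Agent.T6
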