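import Pool.Agent.helper8.T6.SpecC1

set_option autoImplicit false

/-!
# T6, row TLF: at a regular class the condition `p² ∣ Pk` is linear for `Z`
-/

namespace Pool.Agent.T6

open Finset Pool.Agent.T5

theorem TLF_mul (p x x₀ dx y y₀ dy : ℤ) (hx : p ^ 2 ∣ x - (x₀ + p * dx)) (hy : p ^ 2 ∣ y - (y₀ + p * dy)) :
    p ^ 2 ∣ x * y - (x₀ * y₀ + p * (x₀ * dy + y₀ * dx)) := by
  obtain ⟨q, hq⟩ := hx
  obtain ⟨r, hr⟩ := hy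
  have h1 : x = x₀ + p * dx + p ^ 2 * q := by linarith
  have h2 : y = y₀ + p * dy + p ^ 2 * r := by linarith
  refine ⟨dx * dy + q * (y₀ + p * dy) + r * (x₀ + p * dx) + p ^ 2 * q * r, ?_⟩
  rw [h1, h2]
  ring

theorem TLF_lin (p x x₀ dx y y₀ dy α β : ℤ) (hx : p ^ 2 ∣ x - (x₀ + p * dx)) (hy : p ^ 2 ∣ y - (y₀ + p * dy)) :
    p ^ 2 ∣ (α * x + β * y) - ((α * x₀ + β * y₀) + p * (α * dx + β * dy)) := by
  obtain ⟨q, hq⟩ := hx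
  obtain ⟨r, hr⟩ := hy
  have h1 : x = x₀ + p * dx + p ^ 2 * q := by linarith
  have h2 : y = y₀ + p * dy + p ^ 2 * r := by linarith
  refine ⟨α * q + β * r, ?_⟩
  rw [h1, h2]
  ring

theorem TLF_inv (p : ℕ) (hp : p.Prime) (x : ℤ) (hx : ¬ (p : ℤ) ∣ x) : ∃ i : ℤ, (p : ℤ) ^ 2 ∣ i * x - 1 := by
  have h1 : IsCoprime (p : ℤ) x := (Nat.prime_iff_prime_int.1 hp).irreducible.coprime_iff_not_dvd.2 hx
  obtain ⟨a, b, hab⟩ := h1.pow_left (m := 2)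
  exact ⟨b, -a, by linarith⟩

theorem TLF_exp (p n k m₀ g₀ R₀ a b c : ℤ) :
    p ^ 2 ∣ Pk n k (m₀ + p * a) (g₀ + p * b) (R₀ + p * c) - (Pk n k m₀ g₀ R₀ + p *
      ((2 * (n ^ 2 * g₀ * R₀ - m₀ * k * (m₀ ^ 2 + k * R₀)) * (-2 * k * m₀ ^ 2 - k * (m₀ ^ 2 + k * R₀)) -
          16 * (m₀ ^ 2 + k * R₀) * (n ^ 2 * m₀ * g₀ + k ^ 2 * (m₀ ^ 2 + k * R₀)) * m₀ -
          4 * (m₀ ^ 2 + k * R₀) ^ 2 * (n ^ 2 * g₀ + 2 * k ^ 2 * m₀)) * a +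
        (2 * (n ^ 2 * g₀ * R₀ - m₀ * k * (m₀ ^ 2 + k * R₀)) * n ^ 2 * R₀ -
          4 * (m₀ ^ 2 + k * R₀) ^ 2 * n ^ 2 * m₀) * b + Pk' n k m₀ g₀ R₀ * c)) := by
  have hm : p ^ 2 ∣ (m₀ + p * a) - (m₀ + p * a) := by rw [sub_self]; exact dvd_zero _
  have hg : p ^ 2 ∣ (g₀ + p * b) - (g₀ + p * b) := by rw [sub_self]; exact dvd_zero _
  have hR : p ^ 2 ∣ (R₀ + p * c) - (R₀ + p * c) := by rw [sub_self]; exact dvd_zero _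
  have hmm := TLF_mul p _ _ _ _ _ _ hm hm
  have hz := TLF_lin p _ _ _ _ _ _ 1 k hmm hR
  have hgR := TLF_mul p _ _ _ _ _ _ hg hR
  have hmz := TLF_mul p _ _ _ _ _ _ hm hz
  have hs := TLF_lin p _ _ _ _ _ _ (n ^ 2) (-k) hgR hmz
  have hmg := TLF_mul p _ _ _ _ _ _ hm hg
  have hl := TLF_lin p _ _ _ _ _ _ (n ^ 2) (k ^ 2) hmg hz
  have hss := TLF_mul p _ _ _ _ _ _ hs hs
  have hzz := TLF_mul p _ _ _ _ _ _ hz hz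
  have hzzl := TLF_mul p _ _ _ _ _ _ hzz hl
  have hP := TLF_lin p _ _ _ _ _ _ 1 (-4) hss hzzl
  refine hP.trans (dvd_of_eq ?_)
  unfold Pk Pk'
  ring

theorem TLF : TLF_stmt := by
  intro p n k m₀ g₀ R₀ hp hn hP
  obtain ⟨i, hi⟩ := TLF_inv p hp _ hP
  obtain ⟨j, hj⟩ := TLF_inv p hp (n ^ 2) (fun h => hn ((Nat.prime_iff_prime_int.1 hp).dvd_of_dvd_pow h))
  set Pm : ℤ := 2 * (n ^ 2 * g₀ * R₀ - m₀ * k * (m₀ ^ 2 + k * R₀)) * (-2 * k * m₀ ^ 2 - k * (m₀ ^ 2 + k * R₀)) -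
          16 * (m₀ ^ 2 + k * R₀) * (n ^ 2 * m₀ * g₀ + k ^ 2 * (m₀ ^ 2 + k * R₀)) * m₀ -
          4 * (m₀ ^ 2 + k * R₀) ^ 2 * (n ^ 2 * g₀ + 2 * k ^ 2 * m₀) with hPm
  set Pg : ℤ := 2 * (n ^ 2 * g₀ * R₀ - m₀ * k * (m₀ ^ 2 + k * R₀)) * n ^ 2 * R₀ -
          4 * (m₀ ^ 2 + k * R₀) ^ 2 * n ^ 2 * m₀ with hPg
  set P0 : ℤ := Pk n k m₀ g₀ R₀ with hP0
  set PR : ℤ := Pk' n k m₀ g₀ R₀ with hPR
  refine ⟨j * (-m₀ ^ 2 + k * R₀ - k * i * (P0 - Pm * m₀ - Pg * g₀)), j * (2 * m₀ - k * i * Pm), -(j * k * i * Pg), ?_⟩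
  intro m g R Z hm hg hR hd hZ
  obtain ⟨a, ha⟩ := hm
  obtain ⟨b, hb⟩ := hg
  obtain ⟨c, hc⟩ := hR
  have hm' : m = m₀ + p * a := by linarith
  have hg' : g = g₀ + p * b := by linarith
  have hR' : R = R₀ + p * c := by linarith
  have hexp := TLF_exp p n k m₀ g₀ R₀ a b c
  rw [← hm', ← hg', ← hR', ← hPm, ← hPg, ← hP0, ← hPR] at hexp
  have hT : (p : ℤ) ^ 2 ∣ P0 + p * (Pm * a + Pg * b + PR * c) := by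
    have h := dvd_sub hd hexp
    rwa [sub_sub_cancel] at h
  obtain ⟨q1, h1⟩ := hi
  obtain ⟨q2, h2⟩ := hj
  obtain ⟨q3, h3⟩ := hT
  refine ⟨-(q2 * Z) + j * (a ^ 2 + k * (-(p * c * q1) + i * q3)), ?_⟩
  have hZ2 : n ^ 2 * Z = m ^ 2 + k * R := by linarith
  have e1 : Z - (j * (-m₀ ^ 2 + k * R₀ - k * i * (P0 - Pm * m₀ - Pg * g₀)) + j * (2 * m₀ - k * i * Pm) * m +
      -(j * k * i * Pg) * g) =
      -((j * n ^ 2 - 1) * Z) + j * ((n ^ 2 * Z) - m₀ * (2 * m - m₀) - k * R₀ +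
        k * i * (P0 + Pm * (m - m₀) + Pg * (g - g₀))) := by ring
  rw [e1, h2, hZ2, hm', hg', hR']
  have e2 : k * i * (P0 + Pm * (m₀ + p * a - m₀) + Pg * (g₀ + p * b - g₀)) =
      k * i * (p ^ 2 * q3) - k * p * c * (p ^ 2 * q1 + 1) := by
    rw [← h3, ← h1]
    ring
  rw [e2]
  ring

end Pool.Agent.T6
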